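import Pool.Agent.H85.GaussW

namespace Pool.Agent.Results.MP_7df7b8_gt.NonBraidUnit
open Pool.Agent.H85.Gauss

def dg : Diagram := [[(0, true, true), (1, false, true), (0, false, true)], [(1, true, true)]]

def dgInv : Diagram :=
  [[(0, false, false), (1, false, false), (0, true, false)], [(1, true, false)]]

theorem right_inv : Eqv true true 2 (stack dg dgInv) (triv 2) := by
  refine Eqv.fwd [[(4, true, true), (5, true, false), (0, true, true), (2, false, true), (0, false, true), (1, false, false), (3, false, false), (1, true, false)], [(4, false, true), (5, false, false), (2, true, true), (3, true, false)]]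
    (.r2 [] [O 0 true, U 2 true, U 0 true, U 1 false, U 3 false, O 1 false, none] [O 2 true, O 3 false, none] [O 4 true, O 5 false] [U 4 true, U 5 false] 4 5 true true (by decide))
    (by decide) ?_
  refine Eqv.fwd [[(4, true, true), (0, true, true), (5, true, false), (0, false, true), (2, false, true), (1, false, false), (3, false, false), (1, true, false)], [(4, false, true), (2, true, true), (5, false, false), (3, true, false)]]
    (.r3 [O 4 true] [] [U 1 false, U 3 false, O 1 false, none, U 4 true] [O 3 false, none] [O 5 false, O 0 true] [U 2 true, U 0 true] [U 5 false, O 2 true] 5 0 2 false true true true true false (by decide) (by decide) (by decide))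
    (by decide) ?_
  refine Eqv.fwd [[(4, true, true), (5, true, false), (0, true, true), (0, false, true), (2, false, true), (1, false, false), (3, false, false), (1, true, false)], [(4, false, true), (2, true, true), (5, false, false), (3, true, false)]]
    (.oc rfl [O 4 true] [U 0 true, U 2 true, U 1 false, U 3 false, O 1 false, none, U 4 true, O 2 true, U 5 false, O 3 false, none] 0 5 true false)
    (by decide) ?_
  refine Eqv.bwd [[(4, true, true), (5, true, false), (2, false, true), (1, false, false), (3, false, false), (1, true, false)], [(4, false, true), (2, true, true), (5, false, false), (3, true, false)]]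
    (.r1 [O 4 true, O 5 false] [U 2 true, U 1 false, U 3 false, O 1 false, none, U 4 true, O 2 true, U 5 false, O 3 false, none] 0 true true)
    (by decide) ?_
  refine Eqv.fwd [[(4, true, true), (5, true, false), (2, false, true), (1, false, false), (3, false, false), (1, true, false)], [(4, false, true), (12, false, true), (12, true, true), (2, true, true), (5, false, false), (3, true, false)]]
    (.r1 [O 4 true, O 5 false, U 2 true, U 1 false, U 3 false, O 1 false, none, U 4 true] [O 2 true, U 5 false, O 3 false, none] 12 true false)
    (by decide) ?_
  refine Eqv.fwd [[(4, true, true), (5, true, false), (2, false, true), (1, false, false), (3, false, false), (1, true, false)], [(4, false, true), (12, false, true), (2, true, true), (12, true, true), (5, false, false), (3, true, false)]]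
    (.oc rfl [O 4 true, O 5 false, U 2 true, U 1 false, U 3 false, O 1 false, none, U 4 true, U 12 true] [U 5 false, O 3 false, none] 12 2 true true)
    (by decide) ?_
  refine Eqv.fwd [[(4, true, true), (5, true, false), (2, false, true), (1, false, false), (3, false, false), (1, true, false)], [(4, false, true), (12, true, false), (2, true, true), (12, false, false), (5, false, false), (3, true, false)]]
    (.sc rfl [O 4 true, O 5 false, U 2 true, U 1 false, U 3 false, O 1 false, none, U 4 true] [O 2 true] [U 5 false, O 3 false, none] 12 false true (by decide))
    (by decide) ?_
  refine Eqv.fwd [[(4, true, true), (2, false, true), (5, true, false), (1, false, false), (3, false, false), (1, true, false)], [(4, false, true), (2, true, true), (12, true, false), (5, false, false), (12, false, false), (3, true, false)]]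
    (.r3 [O 4 true] [U 1 false, U 3 false, O 1 false, none, U 4 true] [] [O 3 false, none] [O 5 false, U 2 true] [O 12 false, O 2 true] [U 12 false, U 5 false] 2 12 5 true false false false false true (by decide) (by decide) (by decide))
    (by decide) ?_
  refine Eqv.fwd [[(4, true, true), (2, false, true), (5, true, false), (1, true, true), (3, false, false), (1, false, true)], [(4, false, true), (2, true, true), (12, true, false), (5, false, false), (12, false, false), (3, true, false)]]
    (.sc rfl [O 4 true, U 2 true, O 5 false] [U 3 false] [none, U 4 true, O 2 true, O 12 false, U 5 false, U 12 false, O 3 false, none] 1 false false (by decide))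
    (by decide) ?_
  refine Eqv.fwd [[(4, true, true), (2, false, true), (1, true, true), (5, true, false), (3, false, false), (1, false, true)], [(4, false, true), (2, true, true), (12, true, false), (5, false, false), (12, false, false), (3, true, false)]]
    (.oc rfl [O 4 true, U 2 true] [U 3 false, U 1 true, none, U 4 true, O 2 true, O 12 false, U 5 false, U 12 false, O 3 false, none] 5 1 false true)
    (by decide) ?_
  refine Eqv.fwd [[(4, true, true), (2, false, true), (1, true, true), (5, true, false), (3, false, false), (1, false, true)], [(4, false, true), (2, true, true), (12, false, true), (5, false, false), (12, true, true), (3, true, false)]]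
    (.sc rfl [O 4 true, U 2 true, O 1 true, O 5 false, U 3 false, U 1 true, none, U 4 true, O 2 true] [U 5 false] [O 3 false, none] 12 true false (by decide))
    (by decide) ?_
  refine Eqv.fwd [[(4, true, true), (2, false, true), (1, true, true), (5, true, false), (3, false, false), (1, false, true)], [(4, false, true), (2, true, true), (12, false, true), (5, false, false), (3, true, false), (12, true, true)]]
    (.oc rfl [O 4 true, U 2 true, O 1 true, O 5 false, U 3 false, U 1 true, none, U 4 true, O 2 true, U 12 true, U 5 false] [none] 12 3 true false)
    (by decide) ?_
  refine Eqv.fwd [[(4, true, true), (2, false, true), (5, true, false), (1, true, true), (1, false, true), (3, false, false)], [(4, false, true), (2, true, true), (12, false, true), (3, true, false), (5, false, false), (12, true, true)]]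
    (.r3 [O 4 true, U 2 true] [] [none, U 4 true, O 2 true, U 12 true] [O 12 true, none] [O 1 true, O 5 false] [U 3 false, U 1 true] [U 5 false, O 3 false] 5 1 3 false true false false true false (by decide) (by decide) (by decide))
    (by decide) ?_
  refine Eqv.bwd [[(4, true, true), (2, false, true), (5, true, false), (3, false, false)], [(4, false, true), (2, true, true), (12, false, true), (3, true, false), (5, false, false), (12, true, true)]]
    (.r1 [O 4 true, U 2 true, O 5 false] [U 3 false, none, U 4 true, O 2 true, U 12 true, O 3 false, U 5 false, O 12 true, none] 1 true true)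
    (by decide) ?_
  refine Eqv.fwd [[(4, true, true), (2, false, true), (5, true, false), (3, false, false)], [(4, false, true), (2, true, true), (12, true, false), (3, true, false), (5, false, false), (12, false, false)]]
    (.sc rfl [O 4 true, U 2 true, O 5 false, U 3 false, none, U 4 true, O 2 true] [O 3 false, U 5 false] [none] 12 false true (by decide))
    (by decide) ?_
  refine Eqv.fwd [[(4, true, true), (5, true, false), (2, false, true), (3, false, false)], [(4, false, true), (12, true, false), (2, true, true), (3, true, false), (12, false, false), (5, false, false)]]
    (.r3 [O 4 true] [U 3 false, none, U 4 true] [O 3 false] [none] [U 2 true, O 5 false] [O 2 true, O 12 false] [U 5 false, U 12 false] 2 12 5 true false false true true false (by decide) (by decide) (by decide))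
    (by decide) ?_
  refine Eqv.bwd [[(4, true, true), (5, true, false)], [(4, false, true), (12, true, false), (12, false, false), (5, false, false)]]
    (.r2 [O 4 true, O 5 false] [none, U 4 true, O 12 false] [U 12 false, U 5 false, none] [U 2 true, U 3 false] [O 2 true, O 3 false] 2 3 true true (by decide))
    (by decide) ?_
  refine Eqv.bwd [[(4, true, true), (5, true, false)], [(4, false, true), (5, false, false)]]
    (.r1 [O 4 true, O 5 false, none, U 4 true] [U 5 false, none] 12 false true)
    (by decide) ?_
  refine Eqv.bwd [[], []]
    (.r2 [] [none] [none] [O 4 true, O 5 false] [U 4 true, U 5 false] 4 5 true true (by decide))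
    (by decide) ?_
  exact .refl _
theorem left_inv : Eqv true true 2 (stack dgInv dg) (triv 2) := by
  refine Eqv.fwd [[(4, true, true), (5, true, false), (0, false, false), (2, false, false), (0, true, false), (1, true, true), (3, false, true), (1, false, true)], [(4, false, true), (5, false, false), (2, true, false), (3, true, true)]]
    (.r2 [] [U 0 false, U 2 false, O 0 false, O 1 true, U 3 true, U 1 true, none] [O 2 false, O 3 true, none] [O 4 true, O 5 false] [U 4 true, U 5 false] 4 5 true true (by decide))
    (by decide) ?_
  refine Eqv.fwd [[(4, true, true), (5, true, false), (0, true, true), (2, false, false), (0, false, true), (1, true, true), (3, false, true), (1, false, true)], [(4, false, true), (5, false, false), (2, true, false), (3, true, true)]]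
    (.sc rfl [O 4 true, O 5 false] [U 2 false] [O 1 true, U 3 true, U 1 true, none, U 4 true, U 5 false, O 2 false, O 3 true, none] 0 false false (by decide))
    (by decide) ?_
  refine Eqv.fwd [[(4, true, true), (0, true, true), (5, true, false), (2, false, false), (0, false, true), (1, true, true), (3, false, true), (1, false, true)], [(4, false, true), (5, false, false), (2, true, false), (3, true, true)]]
    (.oc rfl [O 4 true] [U 2 false, U 0 true, O 1 true, U 3 true, U 1 true, none, U 4 true, U 5 false, O 2 false, O 3 true, none] 5 0 false true)
    (by decide) ?_
  refine Eqv.fwd [[(4, true, true), (5, true, false), (0, true, true), (0, false, true), (2, false, false), (1, true, true), (3, false, true), (1, false, true)], [(4, false, true), (2, true, false), (5, false, false), (3, true, true)]]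
    (.r3 [O 4 true] [] [O 1 true, U 3 true, U 1 true, none, U 4 true] [O 3 true, none] [O 0 true, O 5 false] [U 2 false, U 0 true] [U 5 false, O 2 false] 5 0 2 false true false false true false (by decide) (by decide) (by decide))
    (by decide) ?_
  refine Eqv.bwd [[(4, true, true), (5, true, false), (2, false, false), (1, true, true), (3, false, true), (1, false, true)], [(4, false, true), (2, true, false), (5, false, false), (3, true, true)]]
    (.r1 [O 4 true, O 5 false] [U 2 false, O 1 true, U 3 true, U 1 true, none, U 4 true, O 2 false, U 5 false, O 3 true, none] 0 true true)
    (by decide) ?_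
  refine Eqv.fwd [[(4, true, true), (5, true, false), (2, false, false), (1, true, true), (3, false, true), (1, false, true)], [(4, false, true), (2, true, false), (12, true, true), (12, false, true), (5, false, false), (3, true, true)]]
    (.r1 [O 4 true, O 5 false, U 2 false, O 1 true, U 3 true, U 1 true, none, U 4 true, O 2 false] [U 5 false, O 3 true, none] 12 true true)
    (by decide) ?_
  refine Eqv.fwd [[(4, true, true), (2, false, false), (5, true, false), (1, true, true), (3, false, true), (1, false, true)], [(4, false, true), (12, true, true), (2, true, false), (5, false, false), (12, false, true), (3, true, true)]]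
    (.r3 [O 4 true] [O 1 true, U 3 true, U 1 true, none, U 4 true] [] [O 3 true, none] [O 5 false, U 2 false] [O 2 false, O 12 true] [U 12 true, U 5 false] 2 12 5 false true false true false true (by decide) (by decide) (by decide))
    (by decide) ?_
  refine Eqv.fwd [[(4, true, true), (2, false, false), (5, true, false), (1, true, true), (3, false, true), (1, false, true)], [(4, false, true), (12, false, false), (2, true, false), (5, false, false), (12, true, false), (3, true, true)]]
    (.sc rfl [O 4 true, U 2 false, O 5 false, O 1 true, U 3 true, U 1 true, none, U 4 true] [O 2 false, U 5 false] [O 3 true, none] 12 true true (by decide))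
    (by decide) ?_
  refine Eqv.fwd [[(4, true, true), (2, false, false), (5, true, false), (1, true, true), (3, false, true), (1, false, true)], [(4, false, true), (12, false, false), (2, true, false), (5, false, false), (3, true, true), (12, true, false)]]
    (.oc rfl [O 4 true, U 2 false, O 5 false, O 1 true, U 3 true, U 1 true, none, U 4 true, U 12 false, O 2 false, U 5 false] [none] 12 3 false true)
    (by decide) ?_
  refine Eqv.fwd [[(4, true, true), (2, false, false), (1, true, true), (5, true, false), (1, false, true), (3, false, true)], [(4, false, true), (12, false, false), (2, true, false), (3, true, true), (5, false, false), (12, true, false)]]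
    (.r3 [O 4 true, U 2 false] [] [none, U 4 true, U 12 false, O 2 false] [O 12 false, none] [O 5 false, O 1 true] [U 3 true, U 1 true] [U 5 false, O 3 true] 5 1 3 false true true true true false (by decide) (by decide) (by decide))
    (by decide) ?_
  refine Eqv.fwd [[(4, true, true), (2, false, false), (5, true, false), (1, true, true), (1, false, true), (3, false, true)], [(4, false, true), (12, false, false), (2, true, false), (3, true, true), (5, false, false), (12, true, false)]]
    (.oc rfl [O 4 true, U 2 false] [U 1 true, U 3 true, none, U 4 true, U 12 false, O 2 false, O 3 true, U 5 false, O 12 false, none] 1 5 true false)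
    (by decide) ?_
  refine Eqv.bwd [[(4, true, true), (2, false, false), (5, true, false), (3, false, true)], [(4, false, true), (12, false, false), (2, true, false), (3, true, true), (5, false, false), (12, true, false)]]
    (.r1 [O 4 true, U 2 false, O 5 false] [U 3 true, none, U 4 true, U 12 false, O 2 false, O 3 true, U 5 false, O 12 false, none] 1 true true)
    (by decide) ?_
  refine Eqv.fwd [[(4, true, true), (2, false, false), (5, true, false), (3, false, true)], [(4, false, true), (12, true, true), (2, true, false), (3, true, true), (5, false, false), (12, false, true)]]
    (.sc rfl [O 4 true, U 2 false, O 5 false, U 3 true, none, U 4 true] [O 2 false, O 3 true, U 5 false] [none] 12 false false (by decide))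
    (by decide) ?_
  refine Eqv.fwd [[(4, true, true), (5, true, false), (2, false, false), (3, false, true)], [(4, false, true), (2, true, false), (12, true, true), (3, true, true), (12, false, true), (5, false, false)]]
    (.r3 [O 4 true] [U 3 true, none, U 4 true] [O 3 true] [none] [U 2 false, O 5 false] [O 12 true, O 2 false] [U 5 false, U 12 true] 2 12 5 false true false false true false (by decide) (by decide) (by decide))
    (by decide) ?_
  refine Eqv.fwd [[(4, true, true), (5, true, false), (2, false, false), (3, false, true)], [(4, false, true), (12, true, true), (2, true, false), (3, true, true), (12, false, true), (5, false, false)]]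
    (.oc rfl [O 4 true, O 5 false, U 2 false, U 3 true, none, U 4 true] [O 3 true, U 12 true, U 5 false, none] 2 12 false true)
    (by decide) ?_
  refine Eqv.bwd [[(4, true, true), (5, true, false)], [(4, false, true), (12, true, true), (12, false, true), (5, false, false)]]
    (.r2 [O 4 true, O 5 false] [none, U 4 true, O 12 true] [U 12 true, U 5 false, none] [U 2 false, U 3 true] [O 2 false, O 3 true] 2 3 false true (by decide))
    (by decide) ?_
  refine Eqv.bwd [[(4, true, true), (5, true, false)], [(4, false, true), (5, false, false)]]
    (.r1 [O 4 true, O 5 false, none, U 4 true] [U 5 false, none] 12 true true)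
    (by decide) ?_
  refine Eqv.bwd [[], []]
    (.r2 [] [none] [none] [O 4 true, O 5 false] [U 4 true, U 5 false] 4 5 true true (by decide))
    (by decide) ?_
  exact .refl _
def flip' (e : End) : End := (e.1, !e.2.1, e.2.2)

theorem pair_run (τ : ℕ → Bool → ZMod 2) (s : List End)
    (hs : ∀ e ∈ s, τ e.1 true ≠ τ e.1 false) (k p w k' p' w' : ℤ) :
    (runW τ (k, p, w) (s.map some)).2.1 = p ∧
    (runW τ (k', p', w') ((s.map flip').map some)).2.1 = p' ∧
    (runW τ (k, p, w) (s.map some)).2.2 + (runW τ (k', p', w') ((s.map flip').map some)).2.2 =
      w + w' + (runW τ (k, p, w) (s.map some)).1 *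
        (runW τ (k', p', w') ((s.map flip').map some)).1 - k * k' := by
  induction s generalizing k w k' w' with
  | nil => simp [runW]
  | cons e s ih =>
    have he := hs e List.mem_cons_self
    have ih' := ih fun f hf => hs f (List.mem_cons_of_mem _ hf)
    obtain ⟨a, o, t⟩ := e
    simp only at he
    cases o
    · have := ih' (k + eps t) w k' (w' + eps t * k')
      simp only [runW, List.map_cons, List.foldl_cons, stepW, flip', he, if_false, Bool.not_false,
        if_true, Bool.false_eq_true] at this ⊢
      refine ⟨this.1, this.2.1, ?_⟩
      rw [this.2.2]; ring
    · have := ih' k (w + eps t * k) (k' + eps t) w'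
      simp only [runW, List.map_cons, List.foldl_cons, stepW, flip', he, if_false, Bool.not_true,
        if_true, Bool.false_eq_true] at this ⊢
      refine ⟨this.1, this.2.1, ?_⟩
      rw [this.2.2]; ring

theorem ok_mem {τ : ℕ → Bool → ZMod 2} {i : ZMod 2} {s : List End} (h : ok τ i (s.map some))
    (e : End) (he : e ∈ s) : τ e.1 e.2.1 = i := by
  induction s with
  | nil => simp at he
  | cons f s ih =>
    rcases List.mem_cons.mp he with rfl | k
    · exact h.1
    · exact ih h.2 k

theorem no_self {h : ℕ → ℕ} {s : List End} (hs : s.Pairwise fun e e' => h e.1 < h e'.1)
    (e : End) (he : e ∈ s) : flip' e ∉ s := by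
  intro k
  have hne : e ≠ flip' e := by
    intro q
    have := congrArg (fun x : End => x.2.1) q
    simp [flip'] at this
  have : Std.Symm fun e e' : End => h e.1 ≠ h e'.1 := ⟨fun _ _ q => q.symm⟩
  have := (hs.imp (S := fun e e' : End => h e.1 ≠ h e'.1) fun q => q.ne).forall he k hne
  exact this rfl

theorem bal_mono {β : Diagram} (hw : WF 2 β) (hm : Mono β) : Bal β := by
  obtain ⟨h, hh⟩ := hm
  obtain ⟨s1, s2, rfl⟩ := List.length_eq_two.mp hw.1
  have p1 := hh s1 (by simp)
  have p2 := hh s2 (by simp)
  have part : ∀ e, e ∈ s1 ∨ e ∈ s2 → flip' e ∈ s1 ∨ flip' e ∈ s2 := by
    intro e he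
    have := hw.2.2 e (by simpa using he)
    simpa [flip'] using this
  have ff : ∀ e, flip' (flip' e) = e := fun e => by simp [flip']
  have e2 : s2 = s1.map flip' := by
    have : Std.Irrefl fun e e' : End => h e.1 < h e'.1 := ⟨fun _ => lt_irrefl _⟩
    have : Std.Antisymm fun e e' : End => h e.1 < h e'.1 :=
      ⟨fun _ _ a b => absurd a (lt_asymm b)⟩
    refine List.Pairwise.eq_of_mem_iff p2 (by rw [List.pairwise_map]; exact p1) fun e => ?_
    constructor
    · intro he
      rcases part e (Or.inr he) with k | k
      · exact List.mem_map.mpr ⟨_, k, ff e⟩
      · exact absurd k (no_self p2 e he)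
    · intro he
      obtain ⟨f, hf, rfl⟩ := List.mem_map.mp he
      rcases part f (Or.inl hf) with k | k
      · exact absurd k (no_self p1 f hf)
      · exact k
  subst e2
  intro τ hτ
  simp only [flat_cons, flat_nil] at hτ ⊢
  rw [ok_append] at hτ
  obtain ⟨o1, o2⟩ := hτ
  have c0 : (s1.map some).count none = 0 := by simp [List.count_eq_zero]
  rw [c0] at o2
  have o3 := ((ok_append ..).mp (show ok τ (0 + ((0 : ℕ) : ZMod 2) + 1) _ from o2)).1
  have hs : ∀ e ∈ s1, τ e.1 true ≠ τ e.1 false := by
    intro e he
    have k1 := ok_mem o1 e he
    have k2 := ok_mem o3 (flip' e) (List.mem_map_of_mem he)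
    obtain ⟨a, o, t⟩ := e
    cases o <;> simp only [flip', Bool.not_true, Bool.not_false] at k1 k2 ⊢ <;> rw [k1, k2] <;>
      decide
  rw [runW_append]
  set r := runW τ (0, 1, 0) (s1.map some) with hr
  have e1 : runW τ r (none :: ((s1.map flip').map some ++ [none])) =
      stepW τ (sh r.2.2 (runW τ (0, r.2.1 * r.1, 0) ((s1.map flip').map some))) none := by
    rw [← runW_sh]
    simp [runW, stepW, sh]
  obtain ⟨q1, q2, q3⟩ := pair_run τ s1 hs 0 1 0 0 (r.2.1 * r.1) 0
  rw [← hr] at q1 q3
  rw [e1]
  simp only [stepW, sh]
  rw [q2]
  rw [q1] at q3 ⊢
  linarith

theorem not_bal : ¬ Bal dg := by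
  intro h
  have := h (fun a o => if a = 1 ∧ o = true then 1 else 0) (by simp [dg, flat, ok])
  revert this
  decide

/-- `wSL_2^{sc}` has an invertible element that is not the class of a welded pure braid. -/
theorem result : ∃ D D' : Diagram, WF 2 D ∧ WF 2 D' ∧
    Eqv true true 2 (stack D D') (triv 2) ∧ Eqv true true 2 (stack D' D) (triv 2) ∧
    ∀ β : Diagram, WF 2 β → Mono β → ¬ Eqv true true 2 D β :=
  ⟨dg, dgInv, by decide, by decide, right_inv, left_inv,
    fun _ hw hm h => not_bal ((bal_eqv h).mpr (bal_mono hw hm))⟩

end Pool.Agent.Results.MP_7df7b8_gt.NonBraidUnit
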